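import Mathlib

/-!
# An iterated sum-mod-2 image of a Sturmian word need not be rich (MP_9b64ae_co)

The Sturmian word of slope `√2 - 1` and intercept `0` is `u_n = ⌊(n+1)α⌋ - ⌊nα⌋`.  The factor of
`S^6(u)` of length `9` at position `10` is `101100101`, which has only `9` palindromic factors.
-/

set_option autoImplicit false

namespace Pool.Agent.Results.MP_9b64ae_co.SturmianNotRich

/-- The operation `S`: `S(u)_n = (u_n + u_{n+1}) mod 2`. -/
def S (u : ℕ → ℕ) : ℕ → ℕ := fun n => (u n + u (n + 1)) % 2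

/-- The factor of length `n` of the infinite word `u` that starts at position `i`. -/
def factor (u : ℕ → ℕ) (i n : ℕ) : List ℕ := (List.range n).map fun j => u (i + j)

/-- The set of the palindromic factors of a finite word (the empty word is one of them). -/
def palFactors (w : List ℕ) : Set (List ℕ) := {p | p <:+: w ∧ p.reverse = p}

/-- A finite word is rich if it has exactly `|w| + 1` distinct palindromic factors. -/
def Rich (w : List ℕ) : Prop := (palFactors w).ncard = w.length + 1

/-- An infinite word is rich if each of its finite factors is rich. -/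
def RichSeq (u : ℕ → ℕ) : Prop := ∀ i n : ℕ, Rich (factor u i n)

/-- A Sturmian word: an infinite word over `{0, 1}` with exactly `n + 1` distinct factors of
length `n` for every `n`. -/
def Sturmian (u : ℕ → ℕ) : Prop :=
  (∀ n, u n = 0 ∨ u n = 1) ∧ ∀ n, {w | ∃ i, w = factor u i n}.ncard = n + 1

/-! ### Mechanical words are Sturmian -/

section Mechanical

variable (α : ℝ)

/-- The mechanical word of slope `α` and intercept `0`. -/
noncomputable def mech (n : ℕ) : ℕ := (⌊((n : ℝ) + 1) * α⌋ - ⌊(n : ℝ) * α⌋).toNat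

lemma mech_bound (h0 : 0 < α) (h1 : α < 1) (n : ℕ) :
    0 ≤ ⌊((n : ℝ) + 1) * α⌋ - ⌊(n : ℝ) * α⌋ ∧ ⌊((n : ℝ) + 1) * α⌋ - ⌊(n : ℝ) * α⌋ ≤ 1 := by
  constructor
  · have : ⌊(n : ℝ) * α⌋ ≤ ⌊((n : ℝ) + 1) * α⌋ := Int.floor_le_floor (by nlinarith)
    linarith
  · have h3 : ⌊((n : ℝ) + 1) * α⌋ ≤ ⌊(n : ℝ) * α + 1⌋ := Int.floor_le_floor (by nlinarith)
    rw [Int.floor_add_one] at h3
    linarith

/-- The set of `j ≤ n` with `fract (j α) + t ≥ 1`. -/
noncomputable def J (n : ℕ) (t : ℝ) : Finset ℕ :=
  (Finset.range (n + 1)).filter fun j => 1 - Int.fract ((j : ℝ) * α) ≤ t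

lemma floor_add_eq {t : ℝ} (ht0 : 0 ≤ t) (ht1 : t < 1) {n j : ℕ} (hj : j ≤ n) :
    ⌊t + (j : ℝ) * α⌋ = ⌊(j : ℝ) * α⌋ + if j ∈ J α n t then 1 else 0 := by
  have hf0 := Int.fract_nonneg ((j : ℝ) * α)
  have hf1 := Int.fract_lt_one ((j : ℝ) * α)
  have hfe : (j : ℝ) * α = ⌊(j : ℝ) * α⌋ + Int.fract ((j : ℝ) * α) :=
    (Int.floor_add_fract _).symm
  have hmem : j ∈ J α n t ↔ 1 - Int.fract ((j : ℝ) * α) ≤ t := by
    simp [J, Nat.lt_succ_of_le hj]
  rw [Int.floor_eq_iff]
  by_cases h : 1 - Int.fract ((j : ℝ) * α) ≤ t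
  · rw [if_pos (hmem.mpr h)]
    push_cast
    constructor <;> linarith
  · rw [if_neg (fun h' => h (hmem.mp h'))]
    push_cast
    push Not at h
    constructor <;> linarith

lemma zero_not_mem {n : ℕ} {t : ℝ} (ht1 : t < 1) : 0 ∉ J α n t := by
  simp [J, ht1]

/-- Partial sums of a factor. -/
lemma floor_shift (i j : ℕ) :
    ⌊((i : ℝ) + j) * α⌋ - ⌊(i : ℝ) * α⌋ = ⌊Int.fract ((i : ℝ) * α) + (j : ℝ) * α⌋ := by
  have h1 : ((i : ℝ) + j) * α = (Int.fract ((i : ℝ) * α) + (j : ℝ) * α) + ⌊(i : ℝ) * α⌋ := by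
    have := Int.floor_add_fract ((i : ℝ) * α)
    linarith
  rw [h1, Int.floor_add_intCast]
  ring

lemma mech_shift (i j : ℕ) : mech α (i + j) =
    (⌊Int.fract ((i : ℝ) * α) + ((j + 1 : ℕ) : ℝ) * α⌋
      - ⌊Int.fract ((i : ℝ) * α) + (j : ℝ) * α⌋).toNat := by
  unfold mech
  rw [← floor_shift, ← floor_shift]
  push_cast
  congr 1
  have : ((i : ℝ) + j + 1) = (i : ℝ) + (j + 1) := by ring
  rw [this]
  ring

lemma factor_eq_of_J {n i i' : ℕ}
    (h : J α n (Int.fract ((i : ℝ) * α)) = J α n (Int.fract ((i' : ℝ) * α))) :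
    factor (mech α) i n = factor (mech α) i' n := by
  unfold factor
  apply List.map_congr_left
  intro j hj
  rw [List.mem_range] at hj
  rw [mech_shift, mech_shift]
  rw [floor_add_eq α (Int.fract_nonneg _) (Int.fract_lt_one _) (show j + 1 ≤ n by omega),
    floor_add_eq α (Int.fract_nonneg _) (Int.fract_lt_one _) (show j ≤ n by omega),
    floor_add_eq α (Int.fract_nonneg _) (Int.fract_lt_one _) (show j + 1 ≤ n by omega),
    floor_add_eq α (Int.fract_nonneg _) (Int.fract_lt_one _) (show j ≤ n by omega), h]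

lemma J_eq_of_factor (h0 : 0 < α) {n i i' : ℕ}
    (h : factor (mech α) i n = factor (mech α) i' n) :
    J α n (Int.fract ((i : ℝ) * α)) = J α n (Int.fract ((i' : ℝ) * α)) := by
  have hent : ∀ j, j < n → mech α (i + j) = mech α (i' + j) := by
    intro j hj
    have := congrArg (fun l => l[j]?) h
    simpa [factor, hj] using this
  have hG : ∀ j, j ≤ n → ⌊Int.fract ((i : ℝ) * α) + (j : ℝ) * α⌋
      = ⌊Int.fract ((i' : ℝ) * α) + (j : ℝ) * α⌋ := by
    intro j
    induction j with
    | zero =>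
      intro _
      simp
    | succ j ih =>
      intro hj
      have h1 := ih (by omega)
      have h2 := hent j (by omega)
      rw [mech_shift, mech_shift] at h2
      have h3 : ∀ i : ℕ, 0 ≤ ⌊Int.fract ((i : ℝ) * α) + ((j + 1 : ℕ) : ℝ) * α⌋
          - ⌊Int.fract ((i : ℝ) * α) + (j : ℝ) * α⌋ := by
        intro i
        have : ⌊Int.fract ((i : ℝ) * α) + (j : ℝ) * α⌋
            ≤ ⌊Int.fract ((i : ℝ) * α) + ((j + 1 : ℕ) : ℝ) * α⌋ :=
          Int.floor_le_floor (by push_cast; nlinarith)
        linarith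
      have h4 := h3 i
      have h5 := h3 i'
      omega
  ext j
  by_cases hj : j ≤ n
  · have h1 := hG j hj
    rw [floor_add_eq α (Int.fract_nonneg _) (Int.fract_lt_one _) hj,
      floor_add_eq α (Int.fract_nonneg _) (Int.fract_lt_one _) hj] at h1
    by_cases ha : j ∈ J α n (Int.fract ((i : ℝ) * α)) <;>
    by_cases hb : j ∈ J α n (Int.fract ((i' : ℝ) * α)) <;> simp_all
  · have : ∀ t, j ∉ J α n t := by
      intro t ht
      simp only [J, Finset.mem_filter, Finset.mem_range] at ht
      omega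
    simp [this]

lemma J_mono {n : ℕ} {t t' : ℝ} (h : t ≤ t') : J α n t ⊆ J α n t' := by
  intro j hj
  simp only [J, Finset.mem_filter] at hj ⊢
  exact ⟨hj.1, hj.2.trans h⟩

lemma J_eq_of_card {n : ℕ} {t t' : ℝ} (h : (J α n t).card = (J α n t').card) :
    J α n t = J α n t' := by
  rcases le_total t t' with h' | h'
  · exact Finset.eq_of_subset_of_card_le (J_mono α h') h.ge
  · exact (Finset.eq_of_subset_of_card_le (J_mono α h') h.le).symm

lemma J_card_le {n : ℕ} {t : ℝ} (ht1 : t < 1) : (J α n t).card ≤ n := by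
  have h1 : J α n t ⊆ (Finset.range (n + 1)).erase 0 := by
    intro j hj
    rw [Finset.mem_erase]
    refine ⟨?_, (Finset.mem_filter.mp hj).1⟩
    rintro rfl
    exact zero_not_mem α ht1 hj
  have h2 := Finset.card_le_card h1
  rw [Finset.card_erase_of_mem (by simp), Finset.card_range] at h2
  simpa using h2

lemma dense_fract (hα : Irrational α) {a b : ℝ} (ha : 0 ≤ a) (hab : a < b) (hb : b ≤ 1) :
    ∃ i : ℕ, a < Int.fract ((i : ℝ) * α) ∧ Int.fract ((i : ℝ) * α) < b := by
  have hd : DenseRange (fun n : ℕ => n • (α : AddCircle (1 : ℝ))) := by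
    rw [← denseRange_zsmul_iff_nsmul]
    rw [AddCircle.denseRange_zsmul_coe_iff]
    simpa using hα
  have hopen : IsOpen ((fun x : ℝ => (x : AddCircle (1 : ℝ))) '' Set.Ioo a b) :=
    QuotientAddGroup.isOpenMap_coe _ isOpen_Ioo
  obtain ⟨n, hn⟩ := hd.exists_mem_open hopen
    ((Set.nonempty_Ioo.mpr hab).image _)
  obtain ⟨t, ht, hte⟩ := hn
  have h1 : ((t - (n : ℝ) * α : ℝ) : AddCircle (1 : ℝ)) = 0 := by
    rw [AddCircle.coe_sub]
    simp only at hte
    rw [hte, sub_eq_zero, ← nsmul_eq_mul, AddCircle.coe_nsmul]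
  rw [AddCircle.coe_eq_zero_iff] at h1
  obtain ⟨k, hk⟩ := h1
  have h2 : (n : ℝ) * α = t + ((-k : ℤ) : ℝ) := by
    push_cast
    simp only [zsmul_eq_mul, mul_one] at hk
    linarith
  have h3 : Int.fract ((n : ℝ) * α) = t := by
    rw [h2, Int.fract_add_intCast, Int.fract_eq_self]
    exact ⟨by linarith [ht.1], by linarith [ht.2]⟩
  exact ⟨n, by rw [h3]; exact ht.1, by rw [h3]; exact ht.2⟩

lemma exists_card (hα : Irrational α) {n m : ℕ} (hm : m ≤ n) :
    ∃ i : ℕ, (J α n (Int.fract ((i : ℝ) * α))).card = m := by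
  classical
  set θ : ℕ → ℝ := fun j => 1 - Int.fract ((j : ℝ) * α) with hθ
  have hθ0 : ∀ j, 0 < θ j := fun j => by
    have := Int.fract_lt_one ((j : ℝ) * α)
    simp only [hθ]; linarith
  have hθ1 : ∀ j, 1 ≤ j → θ j < 1 := by
    intro j hj
    have h0 : 0 ≤ Int.fract ((j : ℝ) * α) := Int.fract_nonneg _
    have hne : Int.fract ((j : ℝ) * α) ≠ 0 := by
      intro h
      have h1 := Int.floor_add_fract ((j : ℝ) * α)
      rw [h, add_zero] at h1
      have h2 : Irrational ((j : ℝ) * α) := hα.natCast_mul (by omega)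
      exact h2 ⟨((⌊(j : ℝ) * α⌋ : ℤ) : ℚ), by push_cast; exact h1⟩
    have : 0 < Int.fract ((j : ℝ) * α) := lt_of_le_of_ne h0 (Ne.symm hne)
    simp only [hθ]; linarith
  have hinj : ∀ j j', θ j = θ j' → j = j' := by
    intro j j' h
    by_contra hne
    have h1 : Int.fract ((j : ℝ) * α) = Int.fract ((j' : ℝ) * α) := by
      simp only [hθ] at h; linarith
    obtain ⟨k, hk⟩ := Int.fract_eq_fract.mp h1
    have h2 : (((j : ℤ) - (j' : ℤ) : ℤ) : ℝ) * α = k := by push_cast; linarith
    have h3 : ((j : ℤ) - (j' : ℤ) : ℤ) ≠ 0 := by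
      intro h4
      apply hne
      omega
    have h4 : Irrational ((((j : ℤ) - (j' : ℤ) : ℤ) : ℝ) * α) := hα.intCast_mul h3
    exact h4 ⟨(k : ℚ), by push_cast at h2 ⊢; exact h2.symm⟩
  set Θ : Finset ℝ := ((Finset.range (n + 1)).erase 0).image θ with hΘ
  have hcard : Θ.card = n := by
    rw [hΘ, Finset.card_image_of_injective _ (fun j j' h => hinj j j' h),
      Finset.card_erase_of_mem (by simp), Finset.card_range]
    simp
  set e := Θ.orderEmbOfFin hcard with he
  have heΘ : ∀ i, e i ∈ Θ := fun i => Finset.orderEmbOfFin_mem _ _ _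
  have he01 : ∀ i, 0 < e i ∧ e i < 1 := by
    intro i
    have h1 := heΘ i
    rw [hΘ, Finset.mem_image] at h1
    obtain ⟨j, hj, hj'⟩ := h1
    rw [Finset.mem_erase] at hj
    rw [← hj']
    exact ⟨hθ0 j, hθ1 j (by omega)⟩
  have hJcard : ∀ t : ℝ, t < 1 → (J α n t).card
      = (Finset.univ.filter fun i : Fin n => e i ≤ t).card := by
    intro t ht
    have h1 : J α n t = ((Finset.range (n + 1)).erase 0).filter fun j => θ j ≤ t := by
      ext j
      simp only [J, Finset.mem_filter, Finset.mem_erase, hθ]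
      constructor
      · rintro ⟨h1, h2⟩
        refine ⟨⟨?_, h1⟩, h2⟩
        rintro rfl
        simp at h2
        linarith
      · rintro ⟨⟨_, h1⟩, h2⟩
        exact ⟨h1, h2⟩
    have h2 : (((Finset.range (n + 1)).erase 0).filter fun j => θ j ≤ t).card
        = (Θ.filter fun x => x ≤ t).card := by
      rw [hΘ, Finset.filter_image, Finset.card_image_of_injective _ (fun j j' h => hinj j j' h)]
    have h3 : (Θ.filter fun x => x ≤ t).card
        = (Finset.univ.filter fun i : Fin n => e i ≤ t).card := by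
      have h4 : Θ = Finset.univ.image (fun i => e i) := by
        apply Finset.Subset.antisymm
        · intro x hx
          have h5 : x ∈ Set.range e := by
            have h6 : Set.range e = (Θ : Set ℝ) := Finset.range_orderEmbOfFin Θ hcard
            rw [h6]
            exact Finset.mem_coe.mpr hx
          obtain ⟨i, hi⟩ := h5
          exact Finset.mem_image.mpr ⟨i, Finset.mem_univ _, hi⟩
        · intro x hx
          obtain ⟨i, _, hi⟩ := Finset.mem_image.mp hx
          rw [← hi]
          exact heΘ i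
      conv_lhs => rw [h4]
      rw [Finset.filter_image, Finset.card_image_of_injective _ e.injective]
    rw [h1, h2, h3]
  set a : ℝ := if h : m = 0 then 0 else e ⟨m - 1, by omega⟩ with ha
  set b : ℝ := if h : m = n then 1 else e ⟨m, by omega⟩ with hb
  have ha0 : 0 ≤ a := by
    rw [ha]; split_ifs
    · exact le_rfl
    · exact (he01 _).1.le
  have hb1 : b ≤ 1 := by
    rw [hb]; split_ifs
    · exact le_rfl
    · exact (he01 _).2.le
  have hab : a < b := by
    rw [ha, hb]; split_ifs with h1 h2 h2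
    · exact one_pos
    · exact (he01 _).1
    · exact (he01 _).2
    · apply e.strictMono
      rw [Fin.lt_def]
      show m - 1 < m
      omega
  obtain ⟨i, hi1, hi2⟩ := dense_fract α hα ha0 hab hb1
  refine ⟨i, ?_⟩
  rw [hJcard _ (by linarith)]
  have h5 : (Finset.univ.filter fun k : Fin n => e k ≤ Int.fract ((i : ℝ) * α))
      = Finset.univ.filter fun k : Fin n => (k : ℕ) < m := by
    apply Finset.filter_congr
    intro k _
    constructor
    · intro hk
      by_contra hkm
      push Not at hkm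
      have hmn : m ≠ n := by have := k.isLt; omega
      have h6 : b = e ⟨m, by omega⟩ := by rw [hb, dif_neg hmn]
      have h7 : e ⟨m, by omega⟩ ≤ e k := e.monotone hkm
      linarith
    · intro hk
      have hm0 : m ≠ 0 := by omega
      have h6 : a = e ⟨m - 1, by omega⟩ := by rw [ha, dif_neg hm0]
      have h7 : e k ≤ e ⟨m - 1, by omega⟩ := e.monotone (by
        rw [Fin.le_def]; show (k : ℕ) ≤ m - 1; omega)
      linarith
  rw [h5, Fin.card_filter_val_lt]
  omega

/-- Mechanical words of irrational slope are Sturmian. -/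
theorem mech_sturmian (hα : Irrational α) (h0 : 0 < α) (h1 : α < 1) : Sturmian (mech α) := by
  refine ⟨?_, ?_⟩
  · intro n
    have := mech_bound α h0 h1 n
    unfold mech
    omega
  · intro n
    choose f hf using fun m : Fin (n + 1) => exists_card α hα (Nat.le_of_lt_succ m.isLt)
    refine Set.ncard_eq_of_bijective (fun m hm => factor (mech α) (f ⟨m, hm⟩) n) ?_ ?_ ?_
    · rintro w ⟨i, rfl⟩
      have hle := J_card_le α (n := n) (Int.fract_lt_one ((i : ℝ) * α))
      refine ⟨(J α n (Int.fract ((i : ℝ) * α))).card, by omega, ?_⟩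
      apply factor_eq_of_J
      apply J_eq_of_card
      rw [hf]
    · intro m hm
      exact ⟨_, rfl⟩
    · intro m m' hm hm' h
      have h2 := J_eq_of_factor α h0 h
      have h3 := congrArg Finset.card h2
      rw [hf, hf] at h3
      exact h3

end Mechanical

/-! ### The bad factor -/

theorem S_two (u : ℕ → ℕ) (n : ℕ) : S (S u) n = (u n + u (n + 2)) % 2 := by
  simp only [S, add_assoc, Nat.reduceAdd]; omega

theorem S_six (u : ℕ → ℕ) (n : ℕ) :
    S^[6] u n = (u n + u (n + 2) + u (n + 4) + u (n + 6)) % 2 := by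
  have h4 : ∀ (v : ℕ → ℕ) (m : ℕ), S (S (S (S v))) m = (v m + v (m + 4)) % 2 := by
    intro v m
    rw [S_two, S_two, S_two]
    simp only [add_assoc, Nat.reduceAdd]; omega
  have : S^[6] u = S (S (S (S (S (S u))))) := rfl
  rw [this, h4, S_two, S_two]
  simp only [add_assoc, Nat.reduceAdd]; omega

/-- the slope -/
noncomputable def slope : ℝ := Real.sqrt 2 - 1

lemma slope_bounds : 0.4142 < slope ∧ slope < 0.4143 := by
  unfold slope
  constructor
  · have : (1.4142 : ℝ) < Real.sqrt 2 := by
      rw [Real.lt_sqrt (by norm_num)]; norm_num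
    linarith
  · have : Real.sqrt 2 < (1.4143 : ℝ) := by
      rw [Real.sqrt_lt' (by norm_num)]; norm_num
    linarith

lemma slope_irrational : Irrational slope := by
  unfold slope
  have := irrational_sqrt_two.sub_natCast 1
  simpa using this

/-- the values of the floors -/
def fl (n : ℕ) : ℤ := (n : ℤ) * 4142 / 10000

lemma floor_val (n : ℕ) (h : (n : ℤ) * 4143 / 10000 = n * 4142 / 10000) :
    ⌊(n : ℝ) * slope⌋ = fl n := by
  have hb := slope_bounds
  have h1 : (0 : ℝ) ≤ n := Nat.cast_nonneg n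
  unfold fl
  rw [Int.floor_eq_iff]
  constructor
  · have h2 : (n : ℤ) * 4142 / 10000 * 10000 ≤ n * 4142 := Int.ediv_mul_le _ (by norm_num)
    have h3 : (((n : ℤ) * 4142 / 10000 : ℤ) : ℝ) * 10000 ≤ n * 4142 := by exact_mod_cast h2
    nlinarith
  · have h2 : (n : ℤ) * 4143 < ((n : ℤ) * 4143 / 10000 + 1) * 10000 :=
      Int.lt_ediv_add_one_mul_self _ (by norm_num)
    rw [h] at h2
    have h3 : (n : ℝ) * 4143 < ((((n : ℤ) * 4142 / 10000 : ℤ) : ℝ) + 1) * 10000 := by
      exact_mod_cast h2
    nlinarith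

lemma mech_val (n : ℕ) (h : (n : ℤ) * 4143 / 10000 = n * 4142 / 10000)
    (h' : ((n + 1 : ℕ) : ℤ) * 4143 / 10000 = ((n + 1 : ℕ) : ℤ) * 4142 / 10000) :
    mech slope n = (fl (n + 1) - fl n).toNat := by
  unfold mech
  rw [← floor_val n h, ← floor_val (n + 1) h']
  push_cast
  rfl

/-- the factor of length 9 of `S^6(u)` at position 10 -/
def w : List ℕ := [1, 0, 1, 1, 0, 0, 1, 0, 1]

theorem factor_eq : factor (S^[6] (mech slope)) 10 9 = w := by
  have hm : ∀ n, n < 16 → mech slope (10 + n) = (fl (10 + n + 1) - fl (10 + n)).toNat := by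
    intro n hn
    apply mech_val
    · revert n; decide
    · revert n; decide
  have h1 : factor (S^[6] (mech slope)) 10 9 = (List.range 9).map fun n =>
      (mech slope (10 + n) + mech slope (10 + (n + 2)) + mech slope (10 + (n + 4))
        + mech slope (10 + (n + 6))) % 2 := by
    unfold factor
    refine List.map_congr_left fun n _ => ?_
    rw [S_six]
    simp only [add_assoc]
  have h2 : (List.range 9).map (fun n =>
      (mech slope (10 + n) + mech slope (10 + (n + 2)) + mech slope (10 + (n + 4))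
        + mech slope (10 + (n + 6))) % 2)
      = (List.range 9).map (fun n =>
      ((fl (10 + n + 1) - fl (10 + n)).toNat + (fl (10 + (n + 2) + 1) - fl (10 + (n + 2))).toNat
        + (fl (10 + (n + 4) + 1) - fl (10 + (n + 4))).toNat
        + (fl (10 + (n + 6) + 1) - fl (10 + (n + 6))).toNat) % 2) := by
    refine List.map_congr_left fun n hn => ?_
    rw [List.mem_range] at hn
    rw [hm n (by omega), hm (n + 2) (by omega), hm (n + 4) (by omega), hm (n + 6) (by omega)]
  rw [h1, h2]
  decide +kernel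

/-- all palindromic factors of a word, as a finite set -/
def pals (w : List ℕ) : Finset (List ℕ) :=
  ((Finset.range (w.length + 1) ×ˢ Finset.range (w.length + 1)).image
    fun x => (w.drop x.1).take x.2).filter fun p => p.reverse = p

theorem subset_pals (w : List ℕ) : palFactors w ⊆ (pals w : Set (List ℕ)) := by
  rintro p ⟨⟨a, c, h⟩, hp⟩
  simp only [pals, Finset.coe_filter, Finset.mem_image, Finset.mem_product, Finset.mem_range,
    Set.mem_ofPred_eq, Prod.exists]
  refine ⟨⟨a.length, p.length, ⟨?_, ?_⟩, ?_⟩, hp⟩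
  · rw [← h]; simp only [List.length_append]; omega
  · rw [← h]; simp only [List.length_append]; omega
  · rw [← h]; simp

theorem not_rich : ¬ Rich w := by
  intro h
  have h1 : (palFactors w).ncard ≤ (pals w).card := by
    rw [← Set.ncard_coe_finset]
    exact Set.ncard_le_ncard (subset_pals w) (Finset.finite_toSet _)
  have h2 : (pals w).card = 9 := by decide +kernel
  have h3 : w.length = 9 := rfl
  rw [Rich, h3] at h
  omega

/-- **Answer to MP_9b64ae_co (disproved).**  It is not true that `S^k(u)` is rich for every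
Sturmian word `u` and every `k ≥ 1`. -/
theorem result : ¬ ∀ u : ℕ → ℕ, Sturmian u → ∀ k : ℕ, 1 ≤ k → RichSeq (S^[k] u) := by
  intro h
  have hb := slope_bounds
  have hst : Sturmian (mech slope) :=
    mech_sturmian slope slope_irrational (by linarith) (by linarith)
  have h1 := h (mech slope) hst 6 (by norm_num) 10 9
  rw [factor_eq] at h1
  exact not_rich h1

end Pool.Agent.Results.MP_9b64ae_co.SturmianNotRich
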